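import Mathlib

/-!
Definitions for the proof of the 3-decomposition conjecture (MP_34c651_co, S08039).
All matchings are represented by simple graphs on the same vertex type.
-/

set_option autoImplicit false

namespace Pool.Agent.TDC

variable {V : Type*}

/-- degree, as `Set.ncard` of the neighbour set. -/
noncomputable def dg (G : SimpleGraph V) (v : V) : ℕ := (G.neighborSet v).ncard

/-- `M` is a matching (given as a graph). -/
def IsMat (M : SimpleGraph V) : Prop := ∀ ⦃v a b : V⦄, M.Adj v a → M.Adj v b → a = b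

/-- vertices covered by `M`. -/
def cov (M : SimpleGraph V) : Set V := {v | ∃ w, M.Adj v w}

/-- vertices lying on a cycle of `H`. -/
def Cyc (H : SimpleGraph V) : Set V := {v | ∃ c : H.Walk v v, c.IsCycle}

/-- boundary pairs `(x, y)`, `x ∈ D`, `y ∉ D`, `xy` an edge. -/
def bd (G : SimpleGraph V) (D : Set V) : Set (V × V) := {p | p.1 ∈ D ∧ p.2 ∉ D ∧ G.Adj p.1 p.2}

/-- the subgraph of `J` with all edges inside `U` (same vertex type). -/
def within (J : SimpleGraph V) (U : Set V) : SimpleGraph V where
  Adj a b := J.Adj a b ∧ a ∈ U ∧ b ∈ U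
  symm := ⟨fun _ _ h => ⟨h.1.symm, h.2.2, h.2.1⟩⟩
  loopless := ⟨fun _ h => h.1.ne rfl⟩

/-- `J` without its bridges. -/
def noBr (J : SimpleGraph V) : SimpleGraph V where
  Adj a b := J.Adj a b ∧ ¬ J.IsBridge s(a, b)
  symm := ⟨fun _ _ h => ⟨h.1.symm, by rw [Sym2.eq_swap]; exact h.2⟩⟩
  loopless := ⟨fun _ h => h.1.ne rfl⟩

/-- a state: a matching `M ≤ W` such that every vertex on a cycle of `W \ M` has degree 2 in `W \ M`
(so every component of `W \ M` is a tree or a cycle). -/
structure IsState (W M : SimpleGraph V) : Prop where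
  le : M ≤ W
  mat : IsMat M
  two : ∀ v ∈ Cyc (W \ M), dg (W \ M) v = 2

/-- marks: soft vertices (degree `≠ 3` in `W`) on cycles of `W \ M`. -/
def marks (W M : SimpleGraph V) : Set V := {v | v ∈ Cyc (W \ M) ∧ dg W v ≠ 3}

/-- the weight to be minimised: number of marks first, then number of covered vertices. -/
noncomputable def wt (W M : SimpleGraph V) : ℕ :=
  (marks W M).ncard * (Nat.card V + 1) + (cov M).ncard

/-- hypothesis (W2): odd sets of degree-3 vertices have at least three boundary edges. -/
def OddBd (W : SimpleGraph V) : Prop :=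
  ∀ D : Set V, (∀ v ∈ D, dg W v = 3) → Odd D.ncard → 3 ≤ (bd W D).ncard

end Pool.Agent.TDC
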