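import Pool.Agent.TDC.TutteSets

set_option autoImplicit false

namespace Pool.Agent.TDC

open SimpleGraph

variable {V : Type*}

/-- a set closed under a perfect matching has even size. -/
theorem even_of_closed [Finite V] (M : SimpleGraph V) (hM : IsMat M) (D : Set V)
    (h : ∀ v ∈ D, ∃ w ∈ D, M.Adj v w) : Even D.ncard := by
  classical
  let S : M.Subgraph :=
    { verts := D
      Adj := fun a b => M.Adj a b ∧ a ∈ D ∧ b ∈ D
      adj_sub := fun h => h.1
      edge_vert := fun h => h.2.1
      symm := ⟨fun _ _ h => ⟨h.1.symm, h.2.2, h.2.1⟩⟩ }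
  have hS : S.IsMatching := by
    intro v hv
    obtain ⟨w, hw, hvw⟩ := h v hv
    exact ⟨w, ⟨hvw, hv, hw⟩, fun y hy => hM hy.1 hvw⟩
  have : Fintype S.verts := Fintype.ofFinite _
  have := hS.even_card
  rwa [← Set.ncard_eq_toFinset_card'] at this

/-- the contracted graph. -/
def ctr (W : SimpleGraph V) (R P Q : Set V) : SimpleGraph ({y // y ∈ R} ⊕ Bool) where
  Adj := fun a b => match a, b with
    | .inl y, .inl z => W.Adj y z
    | .inl y, .inr b => ∃ v ∈ (if b then Q else P), W.Adj y v
    | .inr b, .inl y => ∃ v ∈ (if b then Q else P), W.Adj y v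
    | .inr b, .inr c => b ≠ c ∧ ∃ v ∈ P, ∃ v' ∈ Q, W.Adj v v'
  symm := ⟨by
    rintro (y | b) (z | c) h
    · exact SimpleGraph.Adj.symm (show W.Adj _ _ from h)
    · exact h
    · exact h
    · exact ⟨h.1.symm, h.2⟩⟩
  loopless := ⟨by
    rintro (y | b) h
    · exact SimpleGraph.Adj.ne (show W.Adj _ _ from h) rfl
    · exact h.1 rfl⟩

/-- first alternative of lemma T from a perfect matching of the contracted graph. -/
theorem lemT_pos [Finite V] (W : SimpleGraph V) (R P Q : Set V)
    (hRP : Disjoint R P) (hRQ : Disjoint R Q) (hPQ : Disjoint P Q)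
    (Mg : (ctr W R P Q).Subgraph) (hMg : Mg.IsPerfectMatching) :
    ∃ v ∈ P, ∃ v' ∈ Q, ∃ N : SimpleGraph V, N ≤ W ∧ IsMat N ∧ cov N = insert v (insert v' R) := by
  classical
  have hpm := Subgraph.isPerfectMatching_iff.mp hMg
  let rep : V → V → ({y // y ∈ R} ⊕ Bool) → V := fun v v' u => match u with
    | .inl y => y
    | .inr b => if b then v' else v
  have key : ∃ v ∈ P, ∃ v' ∈ Q, ∀ p q, Mg.Adj p q → W.Adj (rep v v' p) (rep v v' q) := by
    obtain ⟨u0, hu0, hu0'⟩ := hpm (.inr false)
    obtain ⟨u1, hu1, hu1'⟩ := hpm (.inr true)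
    rcases u0 with y | b
    · -- partner of `inr false` is `inl y`
      rcases u1 with y' | b
      · obtain ⟨v, hv, hyv⟩ : ∃ v ∈ (if false then Q else P), W.Adj y v := Mg.adj_sub hu0
        obtain ⟨v', hv', hyv'⟩ : ∃ v ∈ (if true then Q else P), W.Adj y' v := Mg.adj_sub hu1
        refine ⟨v, hv, v', hv', ?_⟩
        rintro (p | b) (q | c) hpq
        · exact Mg.adj_sub hpq
        · cases c with
          | false =>
            have := hu0' _ hpq.symm
            cases this
            exact hyv
          | true =>
            have := hu1' _ hpq.symm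
            cases this
            exact hyv'
        · cases b with
          | false =>
            have := hu0' _ hpq
            cases this
            exact hyv.symm
          | true =>
            have := hu1' _ hpq
            cases this
            exact hyv'.symm
        · cases b with
          | false => exact absurd (hu0' _ hpq) (by simp)
          | true => exact absurd (hu1' _ hpq) (by simp)
      · have hne : true ≠ b := (Mg.adj_sub hu1 : _ ≠ _ ∧ _).1
        have hb : b = false := by cases b <;> simp_all
        subst hb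
        exact absurd (hu0' _ hu1.symm) (by simp)
    · have hne : false ≠ b := (Mg.adj_sub hu0 : _ ≠ _ ∧ _).1
      have hb : b = true := by cases b <;> simp_all
      subst hb
      obtain ⟨v, hv, v', hv', hvv'⟩ := (Mg.adj_sub hu0 : _ ≠ _ ∧ _).2
      refine ⟨v, hv, v', hv', ?_⟩
      rintro (p | b) (q | c) hpq
      · exact Mg.adj_sub hpq
      · cases c with
        | false => exact absurd (hu0' _ hpq.symm) (by simp)
        | true =>
          have h1 := hu1' _ hpq.symm
          have h2 := hu1' _ hu0.symm
          exact absurd (h1.trans h2.symm) (by simp)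
      · cases b with
        | false => exact absurd (hu0' _ hpq) (by simp)
        | true =>
          have h1 := hu1' _ hpq
          have h2 := hu1' _ hu0.symm
          exact absurd (h1.trans h2.symm) (by simp)
      · have hne : b ≠ c := (Mg.adj_sub hpq : _ ≠ _ ∧ _).1
        cases b with
        | false => 
          have hc : c = true := by cases c <;> simp_all
          subst hc
          exact hvv'
        | true =>
          have hc : c = false := by cases c <;> simp_all
          subst hc
          exact hvv'.symm
  obtain ⟨v, hv, v', hv', hW⟩ := key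
  have hvR : v ∉ R := fun h => Set.disjoint_left.mp hRP h hv
  have hvR' : v' ∉ R := fun h => Set.disjoint_left.mp hRQ h hv'
  have hvv : v ≠ v' := fun h => Set.disjoint_left.mp hPQ hv (h ▸ hv')
  have hinj : Function.Injective (rep v v') := by
    rintro (p | b) (q | c) h
    · have : (p : V) = q := h
      rw [Subtype.ext this]
    · exfalso
      cases c with
      | false => have h2 : (p : V) = v := h; exact hvR (h2 ▸ p.2)
      | true => have h2 : (p : V) = v' := h; exact hvR' (h2 ▸ p.2)
    · exfalso
      cases b with
      | false => have h2 : v = (q : V) := h; exact hvR (h2 ▸ q.2)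
      | true => have h2 : v' = (q : V) := h; exact hvR' (h2 ▸ q.2)
    · cases b <;> cases c
      · rfl
      · exact absurd (h : v = v') hvv
      · exact absurd (h : v' = v) hvv.symm
      · rfl
  refine ⟨v, hv, v', hv',
    { Adj := fun a b => ∃ p q, Mg.Adj p q ∧ rep v v' p = a ∧ rep v v' q = b
      symm := ⟨fun a b ⟨p, q, h, hp, hq⟩ => ⟨q, p, h.symm, hq, hp⟩⟩
      loopless := ⟨fun a ⟨p, q, h, hp, hq⟩ => by
        have h1 := hW p q h
        rw [hp, hq] at h1
        exact h1.ne rfl⟩ }, ?_, ?_, ?_⟩
  · rintro a b ⟨p, q, h, rfl, rfl⟩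
    exact hW p q h
  · rintro a b c ⟨p, q, h, rfl, rfl⟩ ⟨p', q', h', hp', rfl⟩
    have : p' = p := hinj hp'
    subst this
    obtain ⟨w, _, hw⟩ := hpm p'
    rw [hw q h, hw q' h']
  · ext x
    constructor
    · rintro ⟨y, p, q, h, rfl, rfl⟩
      rcases p with p | b
      · exact Or.inr (Or.inr p.2)
      · cases b
        · exact Or.inl rfl
        · exact Or.inr (Or.inl rfl)
    · rintro (rfl | rfl | hx)
      · obtain ⟨w, hw, _⟩ := hpm (.inr false)
        exact ⟨_, _, w, hw, rfl, rfl⟩
      · obtain ⟨w, hw, _⟩ := hpm (.inr true)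
        exact ⟨_, _, w, hw, rfl, rfl⟩
      · obtain ⟨w, hw, _⟩ := hpm (.inl ⟨x, hx⟩)
        exact ⟨_, _, w, hw, rfl, rfl⟩

end Pool.Agent.TDC
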