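import Pool.Agent.TDC.T

set_option autoImplicit false

namespace Pool.Agent.TDC

open SimpleGraph

variable {V : Type*}

/-- number of edges (as pairs) with second coordinate in a set of vertices of degree at most 3. -/
theorem pairs_le [Finite V] (W : SimpleGraph V) (S : Set V) (h : ∀ s ∈ S, dg W s ≤ 3) :
    {p : V × V | p.2 ∈ S ∧ W.Adj p.1 p.2}.ncard ≤ 3 * S.ncard := by
  classical
  have hSf : S.Finite := S.toFinite
  have h1 : {p : V × V | p.2 ∈ S ∧ W.Adj p.1 p.2} ⊆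
      ((hSf.toFinset.biUnion fun s => ((W.neighborSet s).toFinite.toFinset.image fun x => (x, s)) :
        Finset (V × V)) : Set (V × V)) := by
    rintro ⟨x, s⟩ ⟨hs, hx⟩
    simp only [Finset.coe_biUnion, Set.mem_iUnion]
    refine ⟨s, by simpa using hs, ?_⟩
    simp only [Finset.coe_image, Set.mem_image, Finset.mem_coe, Set.Finite.mem_toFinset,
      mem_neighborSet, Prod.mk.injEq, and_true, exists_eq_right]
    exact hx.symm
  refine (Set.ncard_le_ncard h1 (Finset.finite_toSet _)).trans ?_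
  rw [Set.ncard_coe_finset]
  refine Finset.card_biUnion_le.trans ?_
  have h2 : ∀ s ∈ hSf.toFinset,
      ((W.neighborSet s).toFinite.toFinset.image fun x => (x, s)).card ≤ 3 := by
    intro s hs
    refine Finset.card_image_le.trans ?_
    rw [← Set.ncard_eq_toFinset_card]
    exact h s (by simpa using hs)
  refine (Finset.sum_le_sum h2).trans ?_
  rw [Finset.sum_const, smul_eq_mul, ← Set.ncard_eq_toFinset_card, mul_comm]

/-- disjoint union of many sets of size at least three. -/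
theorem three_mul_le {ι α : Type*} [Finite α] (I : Set ι) (hI : I.Finite) (f : ι → Set α)
    (h3 : ∀ i ∈ I, 3 ≤ (f i).ncard) (hd : ∀ i ∈ I, ∀ j ∈ I, i ≠ j → Disjoint (f i) (f j)) :
    3 * I.ncard ≤ (⋃ i ∈ I, f i).ncard := by
  classical
  have h1 : (⋃ i ∈ I, f i) = ((hI.toFinset.biUnion fun i => (f i).toFinite.toFinset : Finset α) : Set α) := by
    ext x; simp
  rw [h1, Set.ncard_coe_finset, Finset.card_biUnion]
  · have h2 : ∀ i ∈ hI.toFinset, 3 ≤ ((f i).toFinite.toFinset).card := by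
      intro i hi
      rw [← Set.ncard_eq_toFinset_card]
      exact h3 i (by simpa using hi)
    have := Finset.sum_le_sum h2
    rw [Finset.sum_const, smul_eq_mul, ← Set.ncard_eq_toFinset_card I hI] at this
    rw [mul_comm]; exact this
  · intro i hi j hj hij
    have := hd i (by simpa using hi) j (by simpa using hj) hij
    rw [Function.onFun] at *
    simpa [Set.disjoint_toFinset] using this

/-- second alternative of lemma T. -/
theorem lemT_neg [Finite V] (W : SimpleGraph V) (R P Q : Set V)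
    (hRP : Disjoint R P) (hRQ : Disjoint R Q) (hPQ : Disjoint P Q)
    (hcl : ∀ v ∈ R, ∀ w, W.Adj v w → w ∈ R ∨ w ∈ P ∨ w ∈ Q)
    (hdeg : ∀ v ∈ R, dg W v ≤ 3)
    (hodd : ∀ D : Set V, D ⊆ R → Odd D.ncard → (∀ v ∈ D, ∀ w, W.Adj v w → w ∈ R) →
      3 ≤ (bd W D).ncard)
    (M : SimpleGraph V) (hM : IsMat M) (hMW : M ≤ W) (hMR : ∀ v ∈ R, ∃ w ∈ R, M.Adj v w)
    (hno : ¬ ∃ Mg : (ctr W R P Q).Subgraph, Mg.IsPerfectMatching) :
    (∃ Z : Set V, Z ⊆ R ∧ ∀ x, (x ∈ P ∨ x ∈ Z) → ∀ y, (y ∈ R ∨ y ∈ Q) → W.Adj x y → y ∈ Z) := by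
  classical
  set Γ := ctr W R P Q with hΓ
  have hcard : Nat.card ({y // y ∈ R} ⊕ Bool) = R.ncard + 2 := by
    rw [Nat.card_sum, Nat.card_coe_set_eq]
    simp
  have hev : Even (Nat.card ({y // y ∈ R} ⊕ Bool)) := by
    rw [hcard]
    exact (even_of_closed M hM R hMR).add (by decide)
  obtain ⟨S, 𝒟, hSD, hD, hdis⟩ := tutte_sets Γ hev hno
  set a0 : {y // y ∈ R} ⊕ Bool := .inr false with ha0
  set a1 : {y // y ∈ R} ⊕ Bool := .inr true with ha1
  -- R-part of a set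
  let pr : Set ({y // y ∈ R} ⊕ Bool) → Set V := fun D => {v | ∃ h : v ∈ R, Sum.inl ⟨v, h⟩ ∈ D}
  have hprcard : ∀ D : Set ({y // y ∈ R} ⊕ Bool), a0 ∉ D → a1 ∉ D → (pr D).ncard = D.ncard := by
    intro D h0 h1
    have : D = (fun v : {y // y ∈ R} => (Sum.inl v : {y // y ∈ R} ⊕ Bool)) '' {v | Sum.inl v ∈ D} := by
      ext u
      constructor
      · intro hu
        rcases u with v | b
        · exact ⟨v, hu, rfl⟩
        · cases b
          · exact absurd hu h0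
          · exact absurd hu h1
      · rintro ⟨v, hv, rfl⟩; exact hv
    have h2 : pr D = Subtype.val '' {v : {y // y ∈ R} | Sum.inl v ∈ D} := by
      ext v
      constructor
      · rintro ⟨h, hv⟩; exact ⟨⟨v, h⟩, hv, rfl⟩
      · rintro ⟨v, hv, rfl⟩; exact ⟨v.2, hv⟩
    rw [h2, Set.ncard_image_of_injective _ Subtype.val_injective]
    conv_rhs => rw [this]
    rw [Set.ncard_image_of_injective _ Sum.inl_injective]
  set 𝒟0 : Set (Set ({y // y ∈ R} ⊕ Bool)) := {D | D ∈ 𝒟 ∧ a0 ∉ D ∧ a1 ∉ D} with h𝒟0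
  have h𝒟fin : 𝒟.Finite := Set.toFinite _
  have h𝒟0fin : 𝒟0.Finite := Set.toFinite _
  -- injection 𝒟0 → pr S
  have hpick : ∀ D ∈ 𝒟0, ∃ v w : V, ∃ hv : v ∈ R, ∃ hw : w ∈ R, Sum.inl ⟨v, hv⟩ ∈ D ∧
      Sum.inl ⟨w, hw⟩ ∈ S ∧ M.Adj v w := by
    intro D hDD
    by_contra hcon
    push Not at hcon
    have hcl2 : ∀ v ∈ pr D, ∃ w ∈ pr D, M.Adj v w := by
      rintro v ⟨hv, hvD⟩
      obtain ⟨w, hw, hvw⟩ := hMR v hv
      refine ⟨w, ⟨hw, ?_⟩, hvw⟩
      have hadj : Γ.Adj (Sum.inl ⟨v, hv⟩) (Sum.inl ⟨w, hw⟩) := hMW hvw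
      rcases (hD D hDD.1).2.2 _ hvD _ hadj with h | h
      · exact h
      · exact absurd hvw (hcon v w hv hw hvD h)
    have h1 := even_of_closed M hM (pr D) hcl2
    rw [hprcard D hDD.2.1 hDD.2.2] at h1
    exact (Nat.not_odd_iff_even.mpr h1) (hD D hDD.1).1
  have hle1 : 𝒟0.ncard ≤ (pr S).ncard := by
    rcases 𝒟0.eq_empty_or_nonempty with he | ⟨Dx, hDx⟩
    · rw [he]; simp
    · obtain ⟨vx, _⟩ := hpick Dx hDx
      have hVne : Nonempty V := ⟨vx⟩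
      choose! fv fw hfv hfw hfD hfS hfM using hpick
      have hinj : Set.InjOn fw 𝒟0 := by
        intro D hDD D' hDD' h
        by_contra hne
        have h1 : fv D = fv D' := by
          have e1 := (hfM D hDD).symm
          have e2 := (hfM D' hDD').symm
          rw [h] at e1
          exact hM e1 e2
        have h2 := hfD D hDD
        have h3 := hfD D' hDD'
        have h4 : (Sum.inl ⟨fv D, hfv D hDD⟩ : {y // y ∈ R} ⊕ Bool) =
            Sum.inl ⟨fv D', hfv D' hDD'⟩ := by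
          simp [h1]
        rw [h4] at h2
        exact Set.disjoint_left.mp (hdis D hDD.1 D' hDD'.1 hne) h2 h3
      refine Set.ncard_le_ncard_of_injOn fw ?_ hinj (Set.toFinite _)
      intro D hDD
      exact ⟨hfw D hDD, hfS D hDD⟩
  have hsub0 : ({D | D ∈ 𝒟 ∧ a0 ∈ D} : Set (Set ({y // y ∈ R} ⊕ Bool))).ncard ≤ 1 := by
    rw [Set.ncard_le_one (Set.toFinite _)]
    rintro D ⟨h1, h2⟩ D' ⟨h3, h4⟩
    by_contra hne
    exact Set.disjoint_left.mp (hdis D h1 D' h3 hne) h2 h4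
  have hsub1 : ({D | D ∈ 𝒟 ∧ a1 ∈ D} : Set (Set ({y // y ∈ R} ⊕ Bool))).ncard ≤ 1 := by
    rw [Set.ncard_le_one (Set.toFinite _)]
    rintro D ⟨h1, h2⟩ D' ⟨h3, h4⟩
    by_contra hne
    exact Set.disjoint_left.mp (hdis D h1 D' h3 hne) h2 h4
  have hdecomp : 𝒟 ⊆ 𝒟0 ∪ ({D | D ∈ 𝒟 ∧ a0 ∈ D} ∪ {D | D ∈ 𝒟 ∧ a1 ∈ D}) := by
    intro D h
    by_cases h0 : a0 ∈ D
    · exact Or.inr (Or.inl ⟨h, h0⟩)
    · by_cases h1 : a1 ∈ D
      · exact Or.inr (Or.inr ⟨h, h1⟩)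
      · exact Or.inl ⟨h, h0, h1⟩
  have hle2 : 𝒟.ncard ≤ 𝒟0.ncard + (({D | D ∈ 𝒟 ∧ a0 ∈ D} : Set (Set ({y // y ∈ R} ⊕ Bool))).ncard +
      ({D | D ∈ 𝒟 ∧ a1 ∈ D} : Set (Set ({y // y ∈ R} ⊕ Bool))).ncard) := by
    refine (Set.ncard_le_ncard hdecomp (Set.toFinite _)).trans ?_
    refine (Set.ncard_union_le _ _).trans ?_
    exact Nat.add_le_add_left (Set.ncard_union_le _ _) _
  -- S contains neither a0 nor a1
  have hprS : (pr S).ncard ≤ S.ncard := by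
    have : pr S = Subtype.val '' {v : {y // y ∈ R} | Sum.inl v ∈ S} := by
      ext v
      constructor
      · rintro ⟨h, hv⟩; exact ⟨⟨v, h⟩, hv, rfl⟩
      · rintro ⟨v, hv, rfl⟩; exact ⟨v.2, hv⟩
    rw [this, Set.ncard_image_of_injective _ Subtype.val_injective,
      ← Set.ncard_image_of_injective _ (Sum.inl_injective (β := Bool))]
    refine Set.ncard_le_ncard ?_ (Set.toFinite _)
    rintro _ ⟨v, hv, rfl⟩; exact hv
  have h0S : a0 ∉ S := by
    intro h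
    have he : ({D | D ∈ 𝒟 ∧ a0 ∈ D} : Set (Set ({y // y ∈ R} ⊕ Bool))) = ∅ := by
      ext D
      simp only [Set.mem_setOf_eq, Set.mem_empty_iff_false, iff_false, not_and]
      intro hDD h2
      exact Set.disjoint_left.mp (hD D hDD).2.1 h2 h
    rw [he, Set.ncard_empty] at hle2
    omega
  have h1S : a1 ∉ S := by
    intro h
    have he : ({D | D ∈ 𝒟 ∧ a1 ∈ D} : Set (Set ({y // y ∈ R} ⊕ Bool))) = ∅ := by
      ext D
      simp only [Set.mem_setOf_eq, Set.mem_empty_iff_false, iff_false, not_and]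
      intro hDD h2
      exact Set.disjoint_left.mp (hD D hDD).2.1 h2 h
    rw [he, Set.ncard_empty] at hle2
    omega
  have hSpr : (pr S).ncard = S.ncard := hprcard S h0S h1S
  -- components of a0 and a1
  have hex0 : ∃ D ∈ 𝒟, a0 ∈ D := by
    by_contra hcon
    push Not at hcon
    have he : ({D | D ∈ 𝒟 ∧ a0 ∈ D} : Set (Set ({y // y ∈ R} ⊕ Bool))) = ∅ := by
      ext D
      simp only [Set.mem_setOf_eq, Set.mem_empty_iff_false, iff_false, not_and]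
      exact hcon D
    rw [he, Set.ncard_empty] at hle2
    omega
  have hex1 : ∃ D ∈ 𝒟, a1 ∈ D := by
    by_contra hcon
    push Not at hcon
    have he : ({D | D ∈ 𝒟 ∧ a1 ∈ D} : Set (Set ({y // y ∈ R} ⊕ Bool))) = ∅ := by
      ext D
      simp only [Set.mem_setOf_eq, Set.mem_empty_iff_false, iff_false, not_and]
      exact hcon D
    rw [he, Set.ncard_empty] at hle2
    omega
  obtain ⟨D0, hD0, h0D0⟩ := hex0
  obtain ⟨D1, hD1, h1D1⟩ := hex1
  have hne01 : D0 ≠ D1 := by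
    intro h
    subst h
    have he : 𝒟 ⊆ 𝒟0 ∪ {D0} := by
      intro D hDD
      by_cases hDe : D = D0
      · exact Or.inr hDe
      · refine Or.inl ⟨hDD, fun h => ?_, fun h => ?_⟩
        · exact Set.disjoint_left.mp (hdis D hDD D0 hD0 hDe) h h0D0
        · exact Set.disjoint_left.mp (hdis D hDD D0 hD0 hDe) h h1D1
    have h2 := (Set.ncard_le_ncard he (Set.toFinite _)).trans (Set.ncard_union_le _ _)
    rw [Set.ncard_singleton] at h2
    omega
  have hcount : S.ncard ≤ 𝒟0.ncard := by omega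
  -- edge counting
  have hbd3 : ∀ D ∈ 𝒟0, 3 ≤ (bd W (pr D)).ncard := by
    intro D hDD
    refine hodd (pr D) (fun v hv => hv.1) ?_ ?_
    · rw [hprcard D hDD.2.1 hDD.2.2]; exact (hD D hDD.1).1
    · rintro v ⟨hv, hvD⟩ w hvw
      rcases hcl v hv w hvw with h | h | h
      · exact h
      · exfalso
        have hadj : Γ.Adj (Sum.inl ⟨v, hv⟩) a0 := ⟨w, by simpa using h, hvw⟩
        rcases (hD D hDD.1).2.2 _ hvD _ hadj with h2 | h2
        · exact hDD.2.1 h2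
        · exact h0S h2
      · exfalso
        have hadj : Γ.Adj (Sum.inl ⟨v, hv⟩) a1 := ⟨w, by simpa using h, hvw⟩
        rcases (hD D hDD.1).2.2 _ hvD _ hadj with h2 | h2
        · exact hDD.2.2 h2
        · exact h1S h2
  have hbdsub : ∀ D ∈ 𝒟0, ∀ p ∈ bd W (pr D), p.2 ∈ pr S := by
    rintro D hDD ⟨x, y⟩ ⟨⟨hx, hxD⟩, hy, hxy⟩
    dsimp only at hxy hy hx hxD ⊢
    have hyR : y ∈ R := by
      rcases hcl x hx y hxy with h | h | h
      · exact h
      · exfalso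
        have hadj : Γ.Adj (Sum.inl ⟨x, hx⟩) a0 := ⟨y, by simpa using h, hxy⟩
        rcases (hD D hDD.1).2.2 _ hxD _ hadj with h2 | h2
        · exact hDD.2.1 h2
        · exact h0S h2
      · exfalso
        have hadj : Γ.Adj (Sum.inl ⟨x, hx⟩) a1 := ⟨y, by simpa using h, hxy⟩
        rcases (hD D hDD.1).2.2 _ hxD _ hadj with h2 | h2
        · exact hDD.2.2 h2
        · exact h1S h2
    refine ⟨hyR, ?_⟩
    have hadj : Γ.Adj (Sum.inl ⟨x, hx⟩) (Sum.inl ⟨y, hyR⟩) := hxy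
    rcases (hD D hDD.1).2.2 _ hxD _ hadj with h2 | h2
    · exact absurd ⟨hyR, h2⟩ hy
    · exact h2
  have hBle := three_mul_le 𝒟0 h𝒟0fin (fun D => bd W (pr D)) hbd3 (by
    intro D hDD D' hDD' hne
    rw [Set.disjoint_left]
    rintro ⟨x, y⟩ ⟨⟨hx, hxD⟩, _⟩ ⟨⟨hx', hxD'⟩, _⟩
    exact Set.disjoint_left.mp (hdis D hDD.1 D' hDD'.1 hne) hxD hxD')
  have hBsub : (⋃ D ∈ 𝒟0, bd W (pr D)) ⊆ {p : V × V | p.2 ∈ pr S ∧ W.Adj p.1 p.2} := by
    intro p hp
    simp only [Set.mem_iUnion] at hp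
    obtain ⟨D, hDD, hp⟩ := hp
    exact ⟨hbdsub D hDD p hp, hp.2.2⟩
  have hple := pairs_le W (pr S) (fun s hs => hdeg s hs.1)
  have hBeq : (⋃ D ∈ 𝒟0, bd W (pr D)) = {p : V × V | p.2 ∈ pr S ∧ W.Adj p.1 p.2} := by
    refine Set.eq_of_subset_of_ncard_le hBsub ?_ (Set.toFinite _)
    omega
  have hS : ∀ x y, y ∈ pr S → W.Adj x y → ∃ D ∈ 𝒟0, x ∈ pr D := by
    intro x y hy hxy
    have : (x, y) ∈ (⋃ D ∈ 𝒟0, bd W (pr D)) := by
      rw [hBeq]; exact ⟨hy, hxy⟩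
    simp only [Set.mem_iUnion] at this
    obtain ⟨D, hDD, hp⟩ := this
    exact ⟨D, hDD, hp.1⟩
  refine ⟨pr D0, fun v hv => hv.1, ?_⟩
  have h1D0 : a1 ∉ D0 := fun h => Set.disjoint_left.mp (hdis D0 hD0 D1 hD1 hne01) h h1D1
  rintro x hx y hy hxy
  rcases hx with hx | ⟨hx, hxD⟩
  · rcases hy with hy | hy
    · refine ⟨hy, ?_⟩
      have hadj : Γ.Adj a0 (Sum.inl ⟨y, hy⟩) := ⟨x, by simpa using hx, hxy.symm⟩
      rcases (hD D0 hD0).2.2 _ h0D0 _ hadj with h2 | h2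
      · exact h2
      · obtain ⟨D, hDD, hxD, _⟩ := hS x y ⟨hy, h2⟩ hxy
        exact absurd hx (Set.disjoint_left.mp hRP hxD)
    · exfalso
      have hadj : Γ.Adj a0 a1 := ⟨by simp, x, hx, y, hy, hxy⟩
      rcases (hD D0 hD0).2.2 _ h0D0 _ hadj with h2 | h2
      · exact h1D0 h2
      · exact h1S h2
  · rcases hy with hy | hy
    · refine ⟨hy, ?_⟩
      have hadj : Γ.Adj (Sum.inl ⟨x, hx⟩) (Sum.inl ⟨y, hy⟩) := hxy
      rcases (hD D0 hD0).2.2 _ hxD _ hadj with h2 | h2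
      · exact h2
      · exfalso
        obtain ⟨D, hDD, hx2, hxD2⟩ := hS x y ⟨hy, h2⟩ hxy
        have : D = D0 := by
          by_contra hne
          exact Set.disjoint_left.mp (hdis D hDD.1 D0 hD0 hne) hxD2 hxD
        subst this
        exact hDD.2.1 h0D0
    · exfalso
      have hadj : Γ.Adj (Sum.inl ⟨x, hx⟩) a1 := ⟨y, by simpa using hy, hxy⟩
      rcases (hD D0 hD0).2.2 _ hxD _ hadj with h2 | h2
      · exact h1D0 h2
      · exact h1S h2

/-- LEMMA T -/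
theorem lemT [Finite V] (W : SimpleGraph V) (R P Q : Set V)
    (hRP : Disjoint R P) (hRQ : Disjoint R Q) (hPQ : Disjoint P Q)
    (hcl : ∀ v ∈ R, ∀ w, W.Adj v w → w ∈ R ∨ w ∈ P ∨ w ∈ Q)
    (hdeg : ∀ v ∈ R, dg W v ≤ 3)
    (hodd : ∀ D : Set V, D ⊆ R → Odd D.ncard → (∀ v ∈ D, ∀ w, W.Adj v w → w ∈ R) →
      3 ≤ (bd W D).ncard)
    (M : SimpleGraph V) (hM : IsMat M) (hMW : M ≤ W) (hMR : ∀ v ∈ R, ∃ w ∈ R, M.Adj v w) :
    (∃ v ∈ P, ∃ v' ∈ Q, ∃ N : SimpleGraph V, N ≤ W ∧ IsMat N ∧ cov N = insert v (insert v' R)) ∨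
    (∃ Z : Set V, Z ⊆ R ∧ ∀ x, (x ∈ P ∨ x ∈ Z) → ∀ y, (y ∈ R ∨ y ∈ Q) → W.Adj x y → y ∈ Z) := by
  by_cases h : ∃ Mg : (ctr W R P Q).Subgraph, Mg.IsPerfectMatching
  · obtain ⟨Mg, hMg⟩ := h
    exact Or.inl (lemT_pos W R P Q hRP hRQ hPQ Mg hMg)
  · exact Or.inr (lemT_neg W R P Q hRP hRQ hPQ hcl hdeg hodd M hM hMW hMR h)

end Pool.Agent.TDC
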