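import Pool.Agent.TDC.Defs

set_option autoImplicit false

namespace Pool.Agent.TDC

open SimpleGraph

/-- Tutte's theorem, sufficiency, with parity: a convenient form with sets. -/
theorem tutte_sets {U : Type*} [Finite U] (Γ : SimpleGraph U) (hev : Even (Nat.card U))
    (hno : ¬ ∃ M : Γ.Subgraph, M.IsPerfectMatching) :
    ∃ (S : Set U) (𝒟 : Set (Set U)), S.ncard + 2 ≤ 𝒟.ncard ∧
      (∀ D ∈ 𝒟, Odd D.ncard ∧ Disjoint D S ∧ ∀ x ∈ D, ∀ y, Γ.Adj x y → y ∈ D ∨ y ∈ S) ∧
      (∀ D ∈ 𝒟, ∀ D' ∈ 𝒟, D ≠ D' → Disjoint D D') := by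
  classical
  have h1 : ∃ u, Γ.IsTutteViolator u := by
    by_contra h
    push Not at h
    exact hno (tutte.mpr h)
  obtain ⟨S, hS⟩ := h1
  set K := ((⊤ : Γ.Subgraph).deleteVerts S).coe with hK
  let f : K.ConnectedComponent → Set U := fun c => Subtype.val '' c.supp
  have hf : Function.Injective f := by
    intro c d hcd
    have : c.supp = d.supp := Subtype.val_injective.image_injective hcd
    exact ConnectedComponent.supp_injective this
  refine ⟨S, f '' K.oddComponents, ?_, ?_, ?_⟩
  · rw [Set.ncard_image_of_injective _ hf]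
    have hlt : S.ncard < K.oddComponents.ncard := hS
    have hpar : Odd K.oddComponents.ncard ↔ Odd (Nat.card ((⊤ : Γ.Subgraph).deleteVerts S).verts) :=
      odd_ncard_oddComponents _
    have hcard : Nat.card ((⊤ : Γ.Subgraph).deleteVerts S).verts + S.ncard = Nat.card U := by
      have : ((⊤ : Γ.Subgraph).deleteVerts S).verts = Sᶜ := by
        ext x; simp
      rw [this, Nat.card_coe_set_eq]
      rw [add_comm]
      exact Set.ncard_add_ncard_compl S
    by_contra hcon
    have heq : K.oddComponents.ncard = S.ncard + 1 := by omega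
    rw [heq] at hpar
    rcases Nat.even_or_odd S.ncard with he | ho
    · have : Odd (S.ncard + 1) := he.add_one
      have h2 := hpar.mp this
      have : Odd (Nat.card U) := by rw [← hcard]; exact h2.add_even he
      exact (Nat.not_odd_iff_even.mpr hev) this
    · have h3 : ¬ Odd (S.ncard + 1) := by
        rw [Nat.not_odd_iff_even]; exact ho.add_one
      have h2 : ¬ Odd (Nat.card ((⊤ : Γ.Subgraph).deleteVerts S).verts) := fun h => h3 (hpar.mpr h)
      rw [Nat.not_odd_iff_even] at h2
      have : Odd (Nat.card U) := by rw [← hcard]; exact h2.add_odd ho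
      exact (Nat.not_odd_iff_even.mpr hev) this
  · rintro D ⟨c, hc, rfl⟩
    refine ⟨?_, ?_, ?_⟩
    · have : Odd c.supp.ncard := hc
      simpa [f, Set.ncard_image_of_injective _ Subtype.val_injective] using this
    · rw [Set.disjoint_left]
      rintro _ ⟨x, _, rfl⟩ hx
      have hx2 : (x : U) ∈ ((⊤ : Γ.Subgraph).deleteVerts S).verts := x.2
      have hx3 : (x : U) ∈ (⊤ : Γ.Subgraph).verts \ S := hx2
      exact hx3.2 hx
    · rintro _ ⟨x, hx, rfl⟩ y hxy
      by_cases hy : y ∈ S
      · exact Or.inr hy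
      · left
        have hyv : y ∈ ((⊤ : Γ.Subgraph).deleteVerts S).verts := by simp [hy]
        refine ⟨⟨y, hyv⟩, ?_, rfl⟩
        have hadj : K.Adj x ⟨y, hyv⟩ := by
          have hx2 := x.2
          simp only [Subgraph.deleteVerts_verts, Subgraph.verts_top, Set.mem_sdiff, Set.mem_univ,
            true_and] at hx2
          rw [hK, Subgraph.coe_adj, Subgraph.deleteVerts_adj]
          simp [hx2, hy, hxy]
        exact (c.mem_supp_congr_adj hadj).mp hx
  · rintro D ⟨c, hc, rfl⟩ D' ⟨d, hd, rfl⟩ hne
    have hcd : c ≠ d := fun h => hne (by rw [h])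
    exact Set.disjoint_image_of_injective Subtype.val_injective
      (pairwise_disjoint_supp_connectedComponent _ hcd)

end Pool.Agent.TDC
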